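import Pool.Agent.Q31.GLV.Stm

/-!
# Job NF of project GLV: the normal form of a square zero map
-/

set_option autoImplicit false

namespace Pool.Agent.Q18.GLV

open Pool.Agent.Q31.GLV
open Module Cardinal Submodule

theorem t_NF : S_NF := by
  intro F V _ _ _ _ δ hδ
  obtain ⟨h2, hr, L, hLk, hLR, hLr⟩ := hδ
  obtain ⟨Q, hQ⟩ := Submodule.exists_isCompl (LinearMap.ker δ)
  obtain ⟨M', hLM, hM'⟩ := hLR.exists_isCompl
  -- ranks
  have hQr : Module.rank F Q = Module.rank F V := by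
    rw [← hr]
    exact ((Submodule.quotientEquivOfIsCompl _ _ hQ).symm.trans
      δ.quotKerEquivRange).rank_eq
  have hMr : Module.rank F (M' ⊓ LinearMap.ker δ : Submodule F V) = Module.rank F V := by
    refine le_antisymm (Submodule.rank_le _) ?_
    rw [← hLr]
    exact Submodule.rank_mono (le_inf hLM hLk)
  obtain ⟨α⟩ := nonempty_linearEquiv_of_rank_eq hQr.symm
  obtain ⟨γ⟩ := nonempty_linearEquiv_of_rank_eq hMr.symm
  let ψ : V × V × V →ₗ[F] V :=
    { toFun := fun p => (α p.1 : V) + δ (α p.2.1 : V) + (γ p.2.2 : V)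
      map_add' := fun p q => by
        simp only [Prod.fst_add, Prod.snd_add, map_add, Submodule.coe_add]
        abel
      map_smul' := fun c p => by
        simp only [Prod.smul_fst, Prod.smul_snd, map_smul, Submodule.coe_smul, smul_add,
          RingHom.id_apply] }
  have hψ : ∀ p, ψ p = (α p.1 : V) + δ (α p.2.1 : V) + (γ p.2.2 : V) := fun p => rfl
  have hγk : ∀ c, δ (γ c : V) = 0 := fun c => LinearMap.mem_ker.1 (γ c).2.2
  have hα0 : ∀ a, δ (α a : V) = 0 → a = 0 := by
    intro a ha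
    have h1 : (α a : V) = 0 := by
      have := hQ.disjoint.le_bot ⟨LinearMap.mem_ker.2 ha, (α a).2⟩
      simpa using this
    have h2 : α a = 0 := Subtype.ext h1
    simpa using h2
  have hδψ : ∀ p, δ (ψ p) = δ (α p.1 : V) := by
    intro p
    rw [hψ, map_add, map_add, h2, hγk, add_zero, add_zero]
  have hinj : Function.Injective ψ := by
    refine (injective_iff_map_eq_zero ψ).2 fun p hp => ?_
    have h1 : p.1 = 0 := hα0 _ (by rw [← hδψ, hp, map_zero])
    have h3 : δ (α p.2.1 : V) + (γ p.2.2 : V) = 0 := by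
      have h4 := hp
      rw [hψ, h1, map_zero, Submodule.coe_zero, zero_add] at h4
      exact h4
    have h5 : δ (α p.2.1 : V) = 0 := by
      have h6 : δ (α p.2.1 : V) ∈ M' := by
        rw [eq_neg_of_add_eq_zero_left h3]
        exact M'.neg_mem (γ p.2.2).2.1
      have := hM'.disjoint.le_bot ⟨h6, LinearMap.mem_range_self δ _⟩
      simpa using this
    have h7 : p.2.1 = 0 := hα0 _ h5
    have h8 : (γ p.2.2 : V) = 0 := by rw [h5, zero_add] at h3; exact h3
    have h9 : γ p.2.2 = 0 := Subtype.ext h8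
    have h10 : p.2.2 = 0 := by simpa using h9
    exact Prod.ext h1 (Prod.ext h7 h10)
  have hsurj : Function.Surjective ψ := by
    intro v
    obtain ⟨k, hk, q, hq, rfl⟩ := Submodule.mem_sup.1
      (by rw [hQ.sup_eq_top]; trivial : v ∈ LinearMap.ker δ ⊔ Q)
    obtain ⟨m, hm, r, ⟨w, rfl⟩, hmr⟩ := Submodule.mem_sup.1
      (by rw [hM'.sup_eq_top]; trivial : k ∈ M' ⊔ LinearMap.range δ)
    obtain ⟨k', hk', q', hq', hw⟩ := Submodule.mem_sup.1
      (by rw [hQ.sup_eq_top]; trivial : w ∈ LinearMap.ker δ ⊔ Q)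
    have hmk : m ∈ LinearMap.ker δ := by
      have : m = k - δ w := by rw [← hmr]; abel
      rw [this]
      exact Submodule.sub_mem _ hk (LinearMap.mem_ker.2 (h2 w))
    refine ⟨(α.symm ⟨q, hq⟩, α.symm ⟨q', hq'⟩, γ.symm ⟨m, hm, hmk⟩), ?_⟩
    rw [hψ]
    simp only [LinearEquiv.apply_symm_apply]
    have hw' : δ w = δ q' := by rw [← hw, map_add, LinearMap.mem_ker.1 hk', zero_add]
    rw [← hmr, hw']
    abel
  let Ψ : (V × V × V) ≃ₗ[F] V := LinearEquiv.ofBijective ψ ⟨hinj, hsurj⟩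
  have hΨ : ∀ p, Ψ p = ψ p := fun p => rfl
  refine ⟨Ψ.symm, fun v => ?_⟩
  rw [LinearEquiv.symm_apply_eq]
  have h1 : δ v = δ (ψ (Ψ.symm v)) := by rw [← hΨ, LinearEquiv.apply_symm_apply]
  rw [h1, hδψ, hΨ, hψ]
  simp only [map_zero, Submodule.coe_zero, zero_add, add_zero]

end Pool.Agent.Q18.GLV
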